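import Pool.Agent.Helper79.GS.St6

/-!
# Project GS (MP_c2d095_lc), module RES
-/

set_option autoImplicit false

namespace Pool.Agent.Helper82.GS

open Pool.Agent.Helper79.GS Pool.Agent.Helper19.SK Pool.Agent.Helper73.DC Finset

theorem hRES (hPSP : StPSP) (hFIN : StFIN) (hONE : StONE) (hMON : StMON) : StRES := by
  refine ⟨LG, hPSP, ?_, ?_⟩
  · intro n m c P H hn hb
    exact hFIN n m c P H hn (hMON _ _ _ _ _ (Nat.le_add_right _ _) hb)
  · intro n c P H hn ho
    refine hFIN n 0 c P H hn ?_
    have h := hONE (Fin n × Fin n) (grid n) P ho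
    have hc : Nat.card (Fin n × Fin n) = n * n := by simp
    rw [hc] at h
    rw [Nat.zero_add]
    exact h

end Pool.Agent.Helper82.GS
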